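import Pool.Agent.T63.DD.Sieve

/-!
# The common divisor for arbitrary degrees in an interval
-/

set_option autoImplicit false

namespace Pool.Agent.T63.DD

open Finset

/-- the primes used -/
def P (z N : ℕ) : Finset ℕ := (Finset.Icc 1 N).filter fun p => p.Prime ∧ z < p ∧ p ^ 8 ≤ N

/-- the number of the degrees divisible by `p` -/
def w {r : ℕ} (d : Fin r → ℕ) (p : ℕ) : ℕ := (univ.filter fun i => p ∣ d i).card

/-- the common divisor -/
def QQ {r : ℕ} (n z N : ℕ) (d : Fin r → ℕ) : ℕ := ∏ p ∈ P z N, p ^ (w d p / n)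

theorem mem_P {z N p : ℕ} : p ∈ P z N ↔ p.Prime ∧ z < p ∧ p ^ 8 ≤ N := by
  unfold P
  rw [mem_filter, mem_Icc]
  constructor
  · exact fun h => h.2
  · intro h
    refine ⟨⟨h.1.one_lt.le, ?_⟩, h⟩
    calc p = p ^ 1 := (pow_one p).symm
      _ ≤ p ^ 8 := Nat.pow_le_pow_right h.1.pos (by norm_num)
      _ ≤ N := h.2.2

theorem QQ_pos {r : ℕ} (n z N : ℕ) (d : Fin r → ℕ) : 0 < QQ n z N d :=
  Finset.prod_pos fun p hp => pow_pos (mem_P.1 hp).1.pos _

theorem QQ_fact {r : ℕ} (n z N : ℕ) (d : Fin r → ℕ) (q : ℕ) :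
    (QQ n z N d).factorization q = if q ∈ P z N then w d q / n else 0 := by
  unfold QQ
  rw [Nat.factorization_prod fun p hp => pow_ne_zero _ (mem_P.1 hp).1.ne_zero]
  rw [Finsupp.finsetSum_apply]
  have h1 : ∀ p ∈ P z N, (p ^ (w d p / n)).factorization q = if p = q then w d q / n else 0 := by
    intro p hp
    rw [(mem_P.1 hp).1.factorization_pow, Finsupp.single_apply]
    split_ifs with h
    · rw [h]
    · rfl
  rw [Finset.sum_congr rfl h1, Finset.sum_ite_eq' _ q]

/-- `p ^ w_p` divides the product of the degrees -/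
theorem pow_w_dvd {r : ℕ} (d : Fin r → ℕ) (p : ℕ) : p ^ w d p ∣ ∏ i, d i := by
  classical
  unfold w
  rw [← Finset.prod_const]
  refine (Finset.prod_dvd_prod_of_dvd (fun _ => p) d fun i hi => (mem_filter.1 hi).2).trans ?_
  exact Finset.prod_dvd_prod_of_subset _ _ _ (filter_subset _ _)

theorem cond {r : ℕ} (n z N : ℕ) (hz : n ≤ z) (d : Fin r → ℕ) {p : ℕ} (hp : p.Prime)
    (hpQ : p ∣ QQ n z N d) : n < p ∧ p ^ (n * (QQ n z N d).factorization p) ∣ ∏ i, d i := by
  have h1 : 1 ≤ (QQ n z N d).factorization p :=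
    (hp.dvd_iff_one_le_factorization (QQ_pos n z N d).ne').1 hpQ
  rw [QQ_fact] at h1 ⊢
  split_ifs at h1 ⊢ with h2
  · refine ⟨by have := (mem_P.1 h2).2.1; omega, dvd_trans (pow_dvd_pow p (Nat.mul_div_le _ _)) (pow_w_dvd d p)⟩
  · omega

/-- the sum over the degrees -/
theorem sum_w {r : ℕ} (z N : ℕ) (hz : 2 ≤ z) (d : Fin r → ℕ) (G : Finset (Fin r))
    (hG : ∀ i ∈ G, ∃ p ∈ P z N, p ∣ d i) :
    (G.card : ℝ) * Real.log z ≤ ∑ p ∈ P z N, (w d p : ℝ) * Real.log p := by
  classical
  have hz' : (2 : ℝ) ≤ z := by exact_mod_cast hz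
  have h1 : ∑ p ∈ P z N, (w d p : ℝ) * Real.log p =
      ∑ i : Fin r, ∑ p ∈ P z N, if p ∣ d i then Real.log p else 0 := by
    rw [Finset.sum_comm]
    refine Finset.sum_congr rfl fun p _ => ?_
    unfold w
    rw [← Finset.sum_filter, Finset.sum_const, nsmul_eq_mul]
  rw [h1]
  have h0 : ∀ i : Fin r, 0 ≤ ∑ p ∈ P z N, if p ∣ d i then Real.log p else 0 := by
    intro i
    refine Finset.sum_nonneg fun p _ => ?_
    split_ifs
    · exact Real.log_natCast_nonneg p
    · exact le_rfl
  calc (G.card : ℝ) * Real.log z = ∑ i ∈ G, Real.log z := by rw [Finset.sum_const, nsmul_eq_mul]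
    _ ≤ ∑ i ∈ G, ∑ p ∈ P z N, if p ∣ d i then Real.log p else 0 := by
        refine Finset.sum_le_sum fun i hi => ?_
        obtain ⟨p, hp, hpd⟩ := hG i hi
        have h2 := Finset.single_le_sum (f := fun p => if p ∣ d i then Real.log (p : ℝ) else 0)
          (fun q _ => by
            split_ifs
            · exact Real.log_natCast_nonneg q
            · exact le_rfl) hp
        rw [if_pos hpd] at h2
        refine le_trans ?_ h2
        exact Real.log_le_log (by linarith) (by exact_mod_cast (mem_P.1 hp).2.1.le)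
    _ ≤ _ := Finset.sum_le_sum_of_subset_of_nonneg (Finset.subset_univ _) fun i _ _ => h0 i

/-- the size of the common divisor -/
theorem log_QQ {r : ℕ} (n z N : ℕ) (hn : 1 ≤ n) (d : Fin r → ℕ) :
    (∑ p ∈ P z N, (w d p : ℝ) * Real.log p) / n - 2 * (N : ℝ) ^ ((1 : ℝ) / 8) ≤ Real.log (QQ n z N d) := by
  have hn0 : (0 : ℝ) < n := by exact_mod_cast hn
  unfold QQ
  push_cast
  rw [Real.log_prod (fun p hp => by
    have := (mem_P.1 hp).1.pos
    positivity)]
  have h1 : ∑ p ∈ P z N, Real.log p ≤ 2 * (N : ℝ) ^ ((1 : ℝ) / 8) := by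
    have h2 := Chebyshev.theta_le_log4_mul_x (x := (N : ℝ) ^ ((1 : ℝ) / 8)) (by positivity)
    rw [Chebyshev.theta_eq_sum_Icc] at h2
    have h3 : Real.log 4 ≤ 2 := by
      have : Real.log 4 = 2 * Real.log 2 := by
        rw [show (4 : ℝ) = 2 ^ 2 by norm_num, Real.log_pow]
        norm_num
      rw [this]
      have := Real.log_two_lt_d9
      linarith
    have h4 : ∑ p ∈ P z N, Real.log p ≤
        ∑ p ∈ (Finset.Icc 0 ⌊(N : ℝ) ^ ((1 : ℝ) / 8)⌋₊).filter Nat.Prime, Real.log p := by
      apply Finset.sum_le_sum_of_subset_of_nonneg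
      · intro p hp
        have hp' := mem_P.1 hp
        rw [mem_filter, mem_Icc]
        refine ⟨⟨Nat.zero_le _, ?_⟩, hp'.1⟩
        apply Nat.le_floor
        have h5 : (p : ℝ) ^ 8 ≤ N := by exact_mod_cast hp'.2.2
        calc (p : ℝ) = ((p : ℝ) ^ 8) ^ ((1 : ℝ) / 8) := by
              rw [← Real.rpow_natCast, ← Real.rpow_mul (by positivity)]
              norm_num
          _ ≤ (N : ℝ) ^ ((1 : ℝ) / 8) := Real.rpow_le_rpow (by positivity) h5 (by norm_num)
      · intro p _ _
        exact Real.log_natCast_nonneg p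
    have h6 : (0 : ℝ) ≤ (N : ℝ) ^ ((1 : ℝ) / 8) := by positivity
    nlinarith
  have h7 : ∀ p ∈ P z N, (w d p : ℝ) * Real.log p / n - Real.log p ≤ Real.log ((p : ℝ) ^ (w d p / n)) := by
    intro p hp
    rw [Real.log_pow]
    have h8 : (w d p : ℝ) / n - 1 ≤ ((w d p / n : ℕ) : ℝ) := by
      have h9 := Nat.lt_div_mul_add (a := w d p) (show 0 < n by omega)
      have h10 : (w d p : ℝ) < ((w d p / n : ℕ) : ℝ) * n + n := by exact_mod_cast h9
      rw [div_sub_one hn0.ne', div_le_iff₀ hn0]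
      linarith
    have h11 := mul_le_mul_of_nonneg_right h8 (Real.log_natCast_nonneg p)
    calc (w d p : ℝ) * Real.log p / n - Real.log p = ((w d p : ℝ) / n - 1) * Real.log p := by ring
      _ ≤ _ := h11
  have h12 := Finset.sum_le_sum h7
  rw [Finset.sum_sub_distrib, ← Finset.sum_div] at h12
  linarith

/-- **The common divisor for arbitrary degrees.** -/
theorem exists_Q : ∃ K₀ : ℝ, 1 ≤ K₀ ∧ ∀ n r M N A : ℕ, 1 ≤ n → 1 ≤ M → 2 ≤ N → ∀ d : Fin r → ℕ,
    (∀ i, A < d i ∧ d i ≤ A + N) → (∀ a, (univ.filter fun i => d i = a).card ≤ M) →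
    K₀ * M * N * Real.log (2 * n) ≤ r * Real.log N →
    ∃ Q : ℕ, 0 < Q ∧ Real.exp ((r : ℝ) ^ 2 * Real.log N / (K₀ * n * M * N)) ≤ Q ∧
      ∀ p : ℕ, p.Prime → p ∣ Q → n < p ∧ p ^ (n * Q.factorization p) ∣ ∏ i, d i := by
  classical
  obtain ⟨K, hK, hrough⟩ := rough
  refine ⟨64 * K, by linarith, ?_⟩
  intro n r M N A hn hM hN d hd hmult hcond
  have hn0 : (1 : ℝ) ≤ n := by exact_mod_cast hn
  have hM0 : (1 : ℝ) ≤ M := by exact_mod_cast hM
  have hN0 : (2 : ℝ) ≤ N := by exact_mod_cast hN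
  have hK0 : (0 : ℝ) < K := by linarith
  set L : ℝ := Real.log N with hL
  have hL0 : 0 < L := Real.log_pos (by linarith)
  set ℓ : ℝ := Real.log (2 * n) with hℓ
  have hℓ0 : Real.log 2 ≤ ℓ := Real.log_le_log (by norm_num) (by linarith)
  have hl2 := Real.log_two_gt_d9
  have hMN : (0 : ℝ) < M * N := by positivity
  -- `r ≤ M N`
  have hr : (r : ℝ) ≤ M * N := by
    have h1 := Finset.card_le_mul_card_image (s := (univ : Finset (Fin r))) (f := d) (n := M)
      (fun a _ => by simpa using hmult a)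
    have h2 : ((univ : Finset (Fin r)).image d).card ≤ N := by
      calc ((univ : Finset (Fin r)).image d).card ≤ (Finset.Ioc A (A + N)).card := by
            apply Finset.card_le_card
            intro a ha
            obtain ⟨i, -, rfl⟩ := mem_image.1 ha
            exact mem_Ioc.2 (hd i)
        _ = N := by simp
    rw [Finset.card_univ, Fintype.card_fin] at h1
    have h3 : r ≤ M * N := h1.trans (Nat.mul_le_mul_left _ h2)
    exact_mod_cast h3
  -- the parameter
  set ρ : ℝ := r / (M * N) with hρ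
  have hρ1 : ρ ≤ 1 := by rw [hρ, div_le_one hMN]; exact hr
  have hrρ : (r : ℝ) = ρ * (M * N) := by rw [hρ]; field_simp
  have hρL : 64 * K * ℓ ≤ ρ * L := by
    rw [hρ, div_mul_eq_mul_div, le_div_iff₀ hMN]
    linarith
  have hρ0 : 0 < ρ := by
    by_contra h
    push Not at h
    have h1 : ρ * L ≤ 0 := mul_nonpos_of_nonpos_of_nonneg h hL0.le
    have h2 : 0 < 64 * K * ℓ := by
      have : 0 < ℓ := by linarith
      positivity
    linarith
  set T : ℝ := ρ * L / (2 * K) with hT
  have hT1 : 32 * ℓ ≤ T := by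
    rw [hT, le_div_iff₀ (by positivity)]
    linarith
  have hT2 : 16 ≤ T := by linarith
  clear_value T ρ L ℓ
  -- `z`
  set z : ℕ := ⌊Real.exp T⌋₊ with hz
  have hz1 : (z : ℝ) ≤ Real.exp T := Nat.floor_le (Real.exp_pos _).le
  have hz2 : Real.exp (T / 2) ≤ z := by
    have h1 : Real.exp T < z + 1 := Nat.lt_floor_add_one _
    have h2 : Real.exp T = Real.exp (T / 2) * Real.exp (T / 2) := by
      rw [← Real.exp_add]
      congr 1
      ring
    have h3 : 2 ≤ Real.exp (T / 2) := by
      have := Real.add_one_le_exp (T / 2)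
      linarith
    nlinarith
  have hz3 : (2 : ℝ) ≤ z := by
    have := Real.add_one_le_exp (T / 2)
    linarith
  have hz3' : 2 ≤ z := by exact_mod_cast hz3
  have hz4 : Real.log z ≤ T := by
    rw [Real.log_le_iff_le_exp (by linarith)]
    exact hz1
  have hz5 : T / 2 ≤ Real.log z := by
    rw [Real.le_log_iff_exp_le (by linarith)]
    exact hz2
  clear_value z
  have hnz : n ≤ z := by
    have h1 : Real.log (2 * n) ≤ T / 2 := by
      have : 0 < ℓ := by linarith
      linarith
    have h2 : 2 * (n : ℝ) ≤ Real.exp (T / 2) := by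
      rwa [Real.log_le_iff_le_exp (by linarith)] at h1
    have h3 : (n : ℝ) ≤ z := by linarith
    exact_mod_cast h3
  -- the degrees without such prime factors
  set Bad : Finset (Fin r) := univ.filter fun i => ∀ l : ℕ, l.Prime → z < l → l ^ 8 ≤ N → ¬ l ∣ d i with hBad
  have hbad : (Bad.card : ℝ) ≤ r / 2 := by
    have h1 := Finset.card_le_mul_card_image (s := Bad) (f := d) (n := M)
      (fun a _ => (Finset.card_le_card (by
        intro i hi
        rw [mem_filter] at hi ⊢
        exact ⟨mem_univ _, hi.2⟩)).trans (hmult a))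
    have h2 : (Bad.image d).card ≤ ((Finset.Ioc A (A + N)).filter
        (fun n => ∀ l : ℕ, l.Prime → z < l → l ^ 8 ≤ N → ¬ l ∣ n)).card := by
      apply Finset.card_le_card
      intro a ha
      obtain ⟨i, hi, rfl⟩ := mem_image.1 ha
      rw [mem_filter, mem_Ioc]
      exact ⟨hd i, (mem_filter.1 hi).2⟩
    have h3 := hrough A N z hN hz3'
    have h4 : K * N * Real.log z / Real.log N ≤ r / (2 * M) := by
      have h5 : K * N * Real.log z / Real.log N ≤ K * N * T / L := by
        rw [← hL]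
        exact div_le_div_of_nonneg_right
          (mul_le_mul_of_nonneg_left hz4 (show (0 : ℝ) ≤ K * N by positivity)) hL0.le
      have h6 : K * N * T / L = r / (2 * M) := by
        rw [hT, hrρ]
        field_simp
      linarith
    have h7 : (Bad.card : ℝ) ≤ M * (r / (2 * M)) := by
      calc (Bad.card : ℝ) ≤ M * ((Bad.image d).card : ℝ) := by exact_mod_cast h1
        _ ≤ M * (r / (2 * M)) := by
            refine mul_le_mul_of_nonneg_left ?_ (by positivity)
            refine le_trans ?_ (h3.trans h4)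
            have h8 : ((Bad.image d).card : ℝ) ≤ (((Finset.Ioc A (A + N)).filter
              (fun n => ∀ l : ℕ, l.Prime → z < l → l ^ 8 ≤ N → ¬ l ∣ n)).card : ℝ) := by exact_mod_cast h2
            convert h8
    calc (Bad.card : ℝ) ≤ M * (r / (2 * M)) := h7
      _ = r / 2 := by field_simp
  have hgood : (r : ℝ) / 2 ≤ ((univ \ Bad).card : ℝ) := by
    have h1 := Finset.card_sdiff_add_card_eq_card (Finset.subset_univ Bad)
    rw [Finset.card_univ, Fintype.card_fin] at h1
    have h2 : ((univ \ Bad).card : ℝ) + (Bad.card : ℝ) = r := by exact_mod_cast h1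
    linarith
  have hsum := sum_w z N hz3' d (univ \ Bad) (by
    intro i hi
    rw [mem_sdiff, hBad, mem_filter] at hi
    have h1 := hi.2
    push Not at h1
    obtain ⟨l, h2, h3, h4, h5⟩ := h1 (mem_univ _)
    exact ⟨l, mem_P.2 ⟨h2, h3, h4⟩, h5⟩)
  have hlogQ := log_QQ n z N hn d
  refine ⟨QQ n z N d, QQ_pos _ _ _ _, ?_, fun p hp hpQ => cond n z N hnz d hp hpQ⟩
  have hQ0 : (0 : ℝ) < QQ n z N d := by exact_mod_cast QQ_pos n z N d
  rw [← Real.le_log_iff_exp_le hQ0]
  -- the main term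
  have hmain : (r : ℝ) * T / (4 * n) ≤ (∑ p ∈ P z N, (w d p : ℝ) * Real.log p) / n := by
    have h1 : (r : ℝ) / 2 * (T / 2) ≤ ∑ p ∈ P z N, (w d p : ℝ) * Real.log p := by
      refine le_trans ?_ hsum
      exact mul_le_mul hgood hz5 (by linarith) (Nat.cast_nonneg _)
    calc (r : ℝ) * T / (4 * n) = (r / 2 * (T / 2)) / n := by ring
      _ ≤ _ := div_le_div_of_nonneg_right h1 (by positivity)
  -- the error term
  have herr : 2 * (N : ℝ) ^ ((1 : ℝ) / 8) ≤ r * T / (8 * n) := by
    set x : ℝ := (N : ℝ) ^ ((1 : ℝ) / 8) with hx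
    have hx0 : 1 ≤ x := Real.one_le_rpow (by linarith) (by norm_num)
    clear_value x
    have hx8 : x ^ 8 = N := by
      rw [hx, ← Real.rpow_natCast, ← Real.rpow_mul (by linarith)]
      norm_num
    have hLx : L ≤ 8 * x := by
      have h1 : L = 8 * Real.log x := by
        rw [hx, Real.log_rpow (by linarith), hL]
        ring
      have h2 := Real.log_le_sub_one_of_pos (show 0 < x by linarith)
      linarith
    have hnx : 2 * (n : ℝ) ≤ x := by
      have h1 : 8 * ℓ ≤ L := by
        have h2 : ρ * L ≤ L := by nlinarith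
        have h3 : 8 * ℓ ≤ 64 * K * ℓ := by nlinarith
        linarith
      have h4 : ℓ ≤ Real.log x := by
        rw [hx, Real.log_rpow (by linarith)]
        linarith
      rw [hℓ] at h4
      exact (Real.log_le_log_iff (by linarith) (by linarith)).1 h4
    have hrx : 4 * x ^ 7 ≤ r := by
      have h1 : 64 * K * ℓ * (M * N) ≤ r * L := by linarith
      have h2 : 32 * (N : ℝ) ≤ 64 * K * ℓ * (M * N) := by
        have h3 : 32 ≤ 64 * K * ℓ := by nlinarith
        have h4 : (N : ℝ) ≤ M * N := le_mul_of_one_le_left (by linarith) hM0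
        exact mul_le_mul h3 h4 (by linarith) (by linarith)
      have h5 : 32 * x ^ 8 ≤ r * (8 * x) := by
        rw [hx8]
        exact (h2.trans h1).trans (mul_le_mul_of_nonneg_left hLx (Nat.cast_nonneg r))
      have h6 : 0 < 8 * x := by linarith
      have h7 : 8 * x * (4 * x ^ 7) ≤ 8 * x * r := by linarith [show 8 * x * (4 * x ^ 7) = 32 * x ^ 8 by ring]
      exact le_of_mul_le_mul_left h7 h6
    rw [le_div_iff₀ (by positivity)]
    have h8 : x ^ 2 ≤ x ^ 7 := pow_le_pow_right₀ hx0 (by norm_num)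
    have h9 : 4 * x ^ 7 * 16 ≤ r * T := mul_le_mul hrx hT2 (by norm_num) (Nat.cast_nonneg r)
    have h10 : 2 * x * (8 * n) ≤ 8 * x ^ 2 := by nlinarith
    linarith [pow_nonneg (show 0 ≤ x by linarith) 7]
  have hfin : (r : ℝ) ^ 2 * L / (64 * K * n * M * N) ≤ r * T / (8 * n) := by
    have h1 : (r : ℝ) * T / (8 * n) = r ^ 2 * L / (16 * K * n * M * N) := by
      rw [hT, hρ]
      field_simp
      ring
    rw [h1]
    apply div_le_div_of_nonneg_left (by positivity) (by positivity)
    have h2 : (0 : ℝ) < K * n * M * N := by positivity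
    nlinarith
  have h1 : (r : ℝ) * T / (4 * n) = r * T / (8 * n) + r * T / (8 * n) := by ring
  linarith

end Pool.Agent.T63.DD
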