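import Pool.Agent.H484R2.Pit
import Pool.Agent.H474R2.PG.MertensF

/-!
# Mertens' theorem for the roots of a polynomial, with logarithmic weights, and counting of roots
-/

set_option autoImplicit false

namespace Pool.Agent.T63.DD

open Finset Polynomial NumberField
open Pool.Agent.H474R2.PG (rho)

theorem eval_congr (f : ℤ[X]) (p : ℕ) (x y : ℤ) (h : (p : ℤ) ∣ x - y) :
    (p : ℤ) ∣ f.eval x ↔ (p : ℤ) ∣ f.eval y :=
  dvd_iff_dvd_of_dvd_sub (h.trans (Polynomial.sub_dvd_eval_sub x y f))

/-- `∑_{p ≤ N} ρ(p) log p / p` -/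
noncomputable def SS (f : ℤ[X]) (N : ℕ) : ℝ :=
  ∑ p ∈ (Finset.Icc 1 N).filter Nat.Prime, (rho f p : ℝ) * Real.log p / p

theorem SS_mono (f : ℤ[X]) {M N : ℕ} (h : M ≤ N) : SS f M ≤ SS f N := by
  unfold SS
  apply Finset.sum_le_sum_of_subset_of_nonneg
  · intro p hp
    rw [mem_filter, mem_Icc] at hp ⊢
    exact ⟨⟨hp.1.1, hp.1.2.trans h⟩, hp.2⟩
  · intro p _ _
    have := Real.log_natCast_nonneg p
    positivity

theorem SS_nonneg (f : ℤ[X]) (N : ℕ) : 0 ≤ SS f N := by
  unfold SS
  refine Finset.sum_nonneg fun p _ => ?_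
  have := Real.log_natCast_nonneg p
  positivity

/-- the lower bound -/
theorem mert_low (f : ℤ[X]) (hf : Irreducible f) (hd : 0 < f.natDegree) {η : ℝ} (hη : 0 < η) (hη1 : η < 1) :
    ∃ C : ℝ, 0 ≤ C ∧ ∀ N : ℕ, 1 ≤ N → (1 - η) * Real.log N - C ≤ SS f N := by
  classical
  obtain ⟨K, iF, iN, B, hB⟩ := Pool.Agent.H474R2.PG.homs_le_rho f hf hd
  have hT := H332.PIT.TT_tendsto (K := K) (Pool.Agent.H484R2.continuation K)
  obtain ⟨N₀, hN₀⟩ := Filter.eventually_atTop.1 (hT.eventually_const_lt (show 1 - η < 1 by linarith))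
  set b : ℕ → ℝ := fun k => if k.Prime then (Nat.card (𝓞 K →+* ZMod k) : ℝ) * Real.log k else 0 with hb
  have hb0 : ∀ k, 0 ≤ b k := by
    intro k
    simp only [hb]
    split_ifs
    · have := Real.log_natCast_nonneg k
      positivity
    · exact le_rfl
  have hTT : ∀ N, H332.PIT.TT K N = ∑ k ∈ range (N + 1), b k := by
    intro N
    unfold H332.PIT.TT
    rw [Finset.sum_filter]
  set N₁ : ℕ := max N₀ 1 with hN₁
  have hN₁1 : 1 ≤ N₁ := le_max_right _ _
  -- the partial sums
  have key : ∀ N, N₁ ≤ N → H332.PIT.TT K N / (N + 1) + (1 - η) * (Real.log (N + 2) - Real.log (N₁ + 2)) ≤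
      ∑ k ∈ range (N + 1), b k / k + 1 * (H332.PIT.TT K N₁) := by
    intro N hN
    induction N, hN using Nat.le_induction with
    | base =>
      rw [sub_self, mul_zero, add_zero, one_mul]
      have h1 : 0 ≤ H332.PIT.TT K N₁ := by
        rw [hTT]
        exact Finset.sum_nonneg fun k _ => hb0 k
      have h2 : 0 ≤ ∑ k ∈ range (N₁ + 1), b k / k := Finset.sum_nonneg fun k _ =>
        div_nonneg (hb0 k) (Nat.cast_nonneg k)
      have h3 : H332.PIT.TT K N₁ / (N₁ + 1) ≤ H332.PIT.TT K N₁ := by
        apply div_le_self h1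
        have : (0 : ℝ) ≤ N₁ := Nat.cast_nonneg _
        linarith
      linarith
    | succ N hN ih =>
      have hN0 : (0 : ℝ) ≤ N := Nat.cast_nonneg N
      have h1 : H332.PIT.TT K (N + 1) = H332.PIT.TT K N + b (N + 1) := by
        rw [hTT, hTT, Finset.sum_range_succ]
      have h2 : (1 - η) * ((N : ℝ) + 1) ≤ H332.PIT.TT K (N + 1) := by
        have h3 := hN₀ (N + 1) (by
          have : N₀ ≤ N₁ := le_max_left _ _
          omega)
        rw [lt_div_iff₀ (by positivity)] at h3
        push_cast at h3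
        exact h3.le
      have h4 : ∑ k ∈ range (N + 1 + 1), b k / k = ∑ k ∈ range (N + 1), b k / k + b (N + 1) / (N + 1) := by
        rw [Finset.sum_range_succ]
        push_cast
        rfl
      have h5 : Real.log (((N + 1 : ℕ) : ℝ) + 2) - Real.log ((N : ℝ) + 2) ≤ 1 / ((N : ℝ) + 2) := by
        rw [← Real.log_div (by positivity) (by positivity)]
        have h6 := Real.log_le_sub_one_of_pos (show 0 < (((N + 1 : ℕ) : ℝ) + 2) / ((N : ℝ) + 2) by positivity)
        refine h6.trans (le_of_eq ?_)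
        push_cast
        field_simp
        ring
      rw [h4]
      have h7 : H332.PIT.TT K (N + 1) / (((N + 1 : ℕ) : ℝ) + 1) =
          H332.PIT.TT K (N + 1) / (N + 1) - H332.PIT.TT K (N + 1) / ((N + 1) * (N + 2)) := by
        push_cast
        field_simp
        ring
      have h8 : H332.PIT.TT K (N + 1) / (N + 1) = H332.PIT.TT K N / (N + 1) + b (N + 1) / (N + 1) := by
        rw [h1, add_div]
      have h9 : (1 - η) * (1 / ((N : ℝ) + 2)) ≤ H332.PIT.TT K (N + 1) / ((N + 1) * (N + 2)) := by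
        rw [mul_one_div, div_le_div_iff₀ (by positivity) (by positivity)]
        have : (1 - η) * (((N : ℝ) + 1) * (N + 2)) = ((1 - η) * ((N : ℝ) + 1)) * (N + 2) := by ring
        rw [this]
        exact mul_le_mul_of_nonneg_right h2 (by positivity)
      have h10 := mul_le_mul_of_nonneg_left h5 (show 0 ≤ 1 - η by linarith)
      rw [h7, h8]
      linarith
  -- comparison
  have hcmp : ∀ N, ∑ k ∈ range (N + 1), b k / k ≤ SS f N + ∑ k ∈ range (B + 1), b k / k := by
    intro N
    have h1 : ∀ k ∈ range (N + 1), b k / k ≤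
        (if k.Prime then (rho f k : ℝ) * Real.log k / k else 0) + (if k ≤ B then b k / k else 0) := by
      intro k _
      have hl := Real.log_natCast_nonneg k
      have h2 : (0 : ℝ) ≤ if k.Prime then (rho f k : ℝ) * Real.log k / k else 0 := by
        split_ifs
        · positivity
        · exact le_rfl
      by_cases hkB : k ≤ B
      · rw [if_pos hkB]
        linarith
      · rw [if_neg hkB, add_zero]
        by_cases hk : k.Prime
        · simp only [hb]
          rw [if_pos hk, if_pos hk]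
          have h3 : (Nat.card (𝓞 K →+* ZMod k) : ℝ) ≤ rho f k := by
            exact_mod_cast hB k hk (not_le.1 hkB)
          exact div_le_div_of_nonneg_right (mul_le_mul_of_nonneg_right h3 hl) (Nat.cast_nonneg k)
        · simp only [hb]
          rw [if_neg hk, if_neg hk, zero_div]
    have h4 := Finset.sum_le_sum h1
    rw [Finset.sum_add_distrib] at h4
    have h5 : ∑ k ∈ range (N + 1), (if k.Prime then (rho f k : ℝ) * Real.log k / k else 0) = SS f N := by
      unfold SS
      rw [H332.PIT.Icc_eq, Finset.sum_filter]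
    have h6 : ∑ k ∈ range (N + 1), (if k ≤ B then b k / k else 0) ≤ ∑ k ∈ range (B + 1), b k / k := by
      rw [← Finset.sum_filter]
      apply Finset.sum_le_sum_of_subset_of_nonneg
      · intro k hk
        rw [mem_filter] at hk
        rw [mem_range]
        omega
      · intro k _ _
        exact div_nonneg (hb0 k) (Nat.cast_nonneg k)
    linarith
  have hTT0 : ∀ N, 0 ≤ H332.PIT.TT K N := fun N => by
    rw [hTT]
    exact Finset.sum_nonneg fun k _ => hb0 k
  have hB0 : 0 ≤ ∑ k ∈ range (B + 1), b k / k := Finset.sum_nonneg fun k _ =>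
    div_nonneg (hb0 k) (Nat.cast_nonneg k)
  have hlN : 0 ≤ Real.log (N₁ + 2) := Real.log_nonneg (by
    have : (0 : ℝ) ≤ N₁ := Nat.cast_nonneg _
    linarith)
  refine ⟨H332.PIT.TT K N₁ + ∑ k ∈ range (B + 1), b k / k + Real.log (N₁ + 2), ?_, fun N hN => ?_⟩
  · have := hTT0 N₁
    positivity
  · have hN' : (1 : ℝ) ≤ N := by exact_mod_cast hN
    have h0 := SS_nonneg f N
    rcases le_total N₁ N with h | h
    · have h1 := key N h
      have h2 := hcmp N
      have h3 : 0 ≤ H332.PIT.TT K N / (N + 1) := div_nonneg (hTT0 N) (by positivity)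
      have h4 : (1 - η) * Real.log N ≤ (1 - η) * Real.log (N + 2) :=
        mul_le_mul_of_nonneg_left (Real.log_le_log (by linarith) (by linarith)) (by linarith)
      have h5 : (1 - η) * Real.log (N₁ + 2) ≤ Real.log (N₁ + 2) := by nlinarith
      linarith
    · have h1 : Real.log N ≤ Real.log (N₁ + 2) := by
        apply Real.log_le_log (by linarith)
        have : (N : ℝ) ≤ N₁ := by exact_mod_cast h
        linarith
      have h2 : (1 - η) * Real.log N ≤ Real.log (N₁ + 2) := by
        have h3 : 0 ≤ Real.log N := Real.log_nonneg hN'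
        nlinarith
      have := hTT0 N₁
      linarith

/-- the upper bound -/
theorem mert_up (f : ℤ[X]) (hf : f ≠ 0) : ∃ C : ℝ, 0 ≤ C ∧ ∀ N : ℕ, 1 ≤ N →
    SS f N ≤ f.natDegree * Real.log N + C := by
  classical
  obtain ⟨B, hB⟩ := Pool.Agent.H474R2.PG.rho_le f hf
  obtain ⟨C, hC⟩ := Pool.Agent.Helper256.KM.mertens_log
  have hC0 : 0 ≤ C := (abs_nonneg _).trans (hC 1 le_rfl)
  refine ⟨f.natDegree * C + SS f B, by
    have := SS_nonneg f B
    positivity, fun N hN => ?_⟩
  have h1 := (abs_le.1 (hC N hN)).2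
  have h2 : SS f N ≤ f.natDegree * (∑ p ∈ (Finset.Icc 1 N).filter Nat.Prime, Real.log p / p) + SS f B := by
    have h3 : ∀ p ∈ (Finset.Icc 1 N).filter Nat.Prime, (rho f p : ℝ) * Real.log p / p ≤
        f.natDegree * (Real.log p / p) + (if p ≤ B then (rho f p : ℝ) * Real.log p / p else 0) := by
      intro p hp
      have hl := Real.log_natCast_nonneg p
      by_cases hpB : p ≤ B
      · rw [if_pos hpB]
        have : (0 : ℝ) ≤ f.natDegree * (Real.log p / p) := by positivity
        linarith
      · rw [if_neg hpB, add_zero, mul_div_assoc]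
        have h4 : (rho f p : ℝ) ≤ f.natDegree := by
          exact_mod_cast hB p (mem_filter.1 hp).2 (not_le.1 hpB)
        exact mul_le_mul_of_nonneg_right h4 (by positivity)
    have h5 := Finset.sum_le_sum h3
    rw [Finset.sum_add_distrib, ← Finset.mul_sum] at h5
    have h6 : ∑ p ∈ (Finset.Icc 1 N).filter Nat.Prime, (if p ≤ B then (rho f p : ℝ) * Real.log p / p else 0) ≤
        SS f B := by
      rw [← Finset.sum_filter]
      unfold SS
      apply Finset.sum_le_sum_of_subset_of_nonneg
      · intro p hp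
        rw [mem_filter, mem_filter, mem_Icc] at hp
        rw [mem_filter, mem_Icc]
        exact ⟨⟨hp.1.1.1, hp.2⟩, hp.1.2⟩
      · intro p _ _
        have := Real.log_natCast_nonneg p
        positivity
    unfold SS at h6 ⊢
    linarith
  have hdeg : (0 : ℝ) ≤ f.natDegree := Nat.cast_nonneg _
  have h7 : (f.natDegree : ℝ) * (∑ p ∈ (Finset.Icc 1 N).filter Nat.Prime, Real.log p / p) ≤
      f.natDegree * (Real.log N + C) := mul_le_mul_of_nonneg_left (by linarith) hdeg
  linarith

/-- the number of the arguments in an interval at which `p` divides the value -/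
theorem count_low (f : ℤ[X]) (p r : ℕ) (hp : 0 < p) (A : ℤ) :
    rho f p * (r / p) ≤ (univ.filter fun i : Fin r => (p : ℤ) ∣ f.eval (A + ((i : ℕ) : ℤ))).card := by
  classical
  have h1 : (univ.filter fun i : Fin r => (p : ℤ) ∣ f.eval (A + ((i : ℕ) : ℤ))).card =
      ((range r).filter fun i : ℕ => (p : ℤ) ∣ f.eval (A + (i : ℤ))).card := by
    rw [← Finset.card_map Fin.valEmbedding]
    congr 1
    ext i
    simp only [mem_map, mem_filter, mem_univ, true_and, Fin.valEmbedding_apply, mem_range]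
    constructor
    · rintro ⟨a, ha, rfl⟩
      exact ⟨a.2, ha⟩
    · rintro ⟨ha, hb⟩
      exact ⟨⟨i, ha⟩, hb, rfl⟩
  rw [h1]
  have h2 : rho f p * (r / p) =
      (((Finset.range p).filter (fun a : ℕ => (p : ℤ) ∣ f.eval (a : ℤ))) ×ˢ range (r / p)).card := by
    rw [Finset.card_product, card_range]
    rfl
  rw [h2]
  have hp' : (0 : ℤ) < p := by exact_mod_cast hp
  have hres : ∀ a : ℤ, 0 ≤ (a - A) % p ∧ (a - A) % p < p := fun a =>
    ⟨Int.emod_nonneg _ hp'.ne', Int.emod_lt_of_pos _ hp'⟩
  refine Finset.card_le_card_of_injOn (fun q => q.2 * p + (((q.1 : ℤ) - A) % p).toNat) ?_ ?_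
  · rintro ⟨a, k⟩ hq
    simp only [coe_product, Set.mem_prod, mem_coe, mem_filter, mem_range] at hq ⊢
    obtain ⟨⟨ha, hfa⟩, hk⟩ := hq
    obtain ⟨e1, e2⟩ := hres a
    have e3 : (((((a : ℤ) - A) % p).toNat : ℕ) : ℤ) = ((a : ℤ) - A) % p := Int.toNat_of_nonneg e1
    have e4 : (((a : ℤ) - A) % p).toNat < p := by omega
    refine ⟨?_, ?_⟩
    · calc k * p + (((a : ℤ) - A) % p).toNat < k * p + p := by omega
        _ = (k + 1) * p := by ring
        _ ≤ (r / p) * p := Nat.mul_le_mul_right p hk
        _ ≤ r := Nat.div_mul_le_self r p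
    · push_cast
      rw [e3]
      rw [eval_congr f p _ (a : ℤ)]
      · exact hfa
      · have e5 := Int.emod_add_mul_ediv ((a : ℤ) - A) p
        have e6 : A + ((k : ℤ) * p + ((a : ℤ) - A) % p) - a = p * (k - ((a : ℤ) - A) / p) := by
          linear_combination e5
        rw [e6]
        exact dvd_mul_right _ _
  · rintro ⟨a, k⟩ hq ⟨a', k'⟩ hq' heq
    simp only [coe_product, Set.mem_prod, mem_coe, mem_filter, mem_range] at hq hq'
    obtain ⟨⟨ha, -⟩, -⟩ := hq
    obtain ⟨⟨ha', -⟩, -⟩ := hq'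
    simp only at heq
    obtain ⟨e1, e2⟩ := hres a
    obtain ⟨e1', e2'⟩ := hres a'
    have e4 : (((a : ℤ) - A) % p).toNat < p := by omega
    have e4' : (((a' : ℤ) - A) % p).toNat < p := by omega
    have hk : k = k' := by
      have h3 : (k * p + (((a : ℤ) - A) % p).toNat) / p = (k' * p + (((a' : ℤ) - A) % p).toNat) / p := by
        rw [heq]
      rw [mul_comm k, mul_comm k', Nat.mul_add_div hp, Nat.mul_add_div hp, Nat.div_eq_of_lt e4,
        Nat.div_eq_of_lt e4'] at h3
      simpa using h3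
    subst hk
    have h3 : ((a : ℤ) - A) % p = ((a' : ℤ) - A) % p := by omega
    have h4 : (p : ℤ) ∣ (a : ℤ) - a' := by
      have h5 := Int.ModEq.dvd (show ((a' : ℤ) - A) ≡ ((a : ℤ) - A) [ZMOD p] from h3.symm)
      have h6 : (a : ℤ) - A - (a' - A) = a - a' := by ring
      rwa [h6] at h5
    have h7 : (a : ℤ) - a' = 0 := by
      apply Int.eq_zero_of_abs_lt_dvd h4
      rw [abs_lt]
      constructor <;> omega
    have h8 : a = a' := by omega
    rw [h8]

end Pool.Agent.T63.DD
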