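import Pool.Agent.T63.DD.Mert

/-!
# The common divisor for degrees in polynomial sequences
-/

set_option autoImplicit false

namespace Pool.Agent.T63.DD

open Finset Polynomial Filter Topology
open Pool.Agent.H474R2.PG (rho)

/-- the primes in `(z, y]` -/
def PI (z y : ℕ) : Finset ℕ := (Finset.Icc 1 y).filter fun p => p.Prime ∧ z < p

/-- the common divisor -/
def QW (n z y : ℕ) (W : ℕ → ℕ) : ℕ := ∏ p ∈ PI z y, p ^ (W p / n)

theorem mem_PI {z y p : ℕ} : p ∈ PI z y ↔ p.Prime ∧ z < p ∧ p ≤ y := by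
  unfold PI
  rw [mem_filter, mem_Icc]
  constructor
  · exact fun h => ⟨h.2.1, h.2.2, h.1.2⟩
  · exact fun h => ⟨⟨h.1.one_lt.le, h.2.2⟩, h.1, h.2.1⟩

theorem QW_pos (n z y : ℕ) (W : ℕ → ℕ) : 0 < QW n z y W :=
  Finset.prod_pos fun _ hp => pow_pos (mem_PI.1 hp).1.pos _

theorem QW_fact (n z y : ℕ) (W : ℕ → ℕ) (q : ℕ) :
    (QW n z y W).factorization q = if q ∈ PI z y then W q / n else 0 := by
  unfold QW
  rw [Nat.factorization_prod fun p hp => pow_ne_zero _ (mem_PI.1 hp).1.ne_zero]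
  rw [Finsupp.finsetSum_apply]
  have h1 : ∀ p ∈ PI z y, (p ^ (W p / n)).factorization q = if p = q then W q / n else 0 := by
    intro p hp
    rw [(mem_PI.1 hp).1.factorization_pow, Finsupp.single_apply]
    split_ifs with h
    · rw [h]
    · rfl
  rw [Finset.sum_congr rfl h1, Finset.sum_ite_eq' _ q]

theorem condW (n z y : ℕ) (hz : n ≤ z) (W : ℕ → ℕ) (D : ℕ) (hW : ∀ p, p ^ W p ∣ D) {p : ℕ} (hp : p.Prime)
    (hpQ : p ∣ QW n z y W) : n < p ∧ p ^ (n * (QW n z y W).factorization p) ∣ D := by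
  have h1 : 1 ≤ (QW n z y W).factorization p :=
    (hp.dvd_iff_one_le_factorization (QW_pos n z y W).ne').1 hpQ
  rw [QW_fact] at h1 ⊢
  split_ifs at h1 ⊢ with h2
  · refine ⟨by have := (mem_PI.1 h2).2.1; omega, dvd_trans (pow_dvd_pow p (Nat.mul_div_le _ _)) (hW p)⟩
  · omega

theorem log_QW (n z y : ℕ) (hn : 1 ≤ n) (W : ℕ → ℕ) :
    (∑ p ∈ PI z y, (W p : ℝ) * Real.log p) / n - 2 * (y : ℝ) ≤ Real.log (QW n z y W) := by
  have hn0 : (0 : ℝ) < n := by exact_mod_cast hn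
  unfold QW
  push_cast
  rw [Real.log_prod (fun p hp => by
    have := (mem_PI.1 hp).1.pos
    positivity)]
  have h1 : ∑ p ∈ PI z y, Real.log p ≤ 2 * (y : ℝ) := by
    have h2 := Chebyshev.theta_le_log4_mul_x (x := (y : ℝ)) (by positivity)
    rw [Chebyshev.theta_eq_sum_Icc, Nat.floor_natCast] at h2
    have h3 : Real.log 4 ≤ 2 := by
      have : Real.log 4 = 2 * Real.log 2 := by
        rw [show (4 : ℝ) = 2 ^ 2 by norm_num, Real.log_pow]
        norm_num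
      rw [this]
      have := Real.log_two_lt_d9
      linarith
    have h4 : ∑ p ∈ PI z y, Real.log p ≤ ∑ p ∈ (Finset.Icc 0 y).filter Nat.Prime, Real.log p := by
      apply Finset.sum_le_sum_of_subset_of_nonneg
      · intro p hp
        have hp' := mem_PI.1 hp
        rw [mem_filter, mem_Icc]
        exact ⟨⟨Nat.zero_le _, hp'.2.2⟩, hp'.1⟩
      · intro p _ _
        exact Real.log_natCast_nonneg p
    have h6 : (0 : ℝ) ≤ (y : ℝ) := by positivity
    nlinarith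
  have h7 : ∀ p ∈ PI z y, (W p : ℝ) * Real.log p / n - Real.log p ≤ Real.log ((p : ℝ) ^ (W p / n)) := by
    intro p hp
    rw [Real.log_pow]
    have h8 : (W p : ℝ) / n - 1 ≤ ((W p / n : ℕ) : ℝ) := by
      have h9 := Nat.lt_div_mul_add (a := W p) (show 0 < n by omega)
      have h10 : (W p : ℝ) < ((W p / n : ℕ) : ℝ) * n + n := by exact_mod_cast h9
      rw [div_sub_one hn0.ne', div_le_iff₀ hn0]
      linarith
    have h11 := mul_le_mul_of_nonneg_right h8 (Real.log_natCast_nonneg p)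
    calc (W p : ℝ) * Real.log p / n - Real.log p = ((W p : ℝ) / n - 1) * Real.log p := by ring
      _ ≤ _ := h11
  have h12 := Finset.sum_le_sum h7
  rw [Finset.sum_sub_distrib, ← Finset.sum_div] at h12
  linarith

/-- the number of the pairs `(i, j)` such that `p` divides `F_j(A + i)` -/
def WW {g r : ℕ} (F : Fin g → ℤ[X]) (A : ℤ) (p : ℕ) : ℕ :=
  ∑ j, (univ.filter fun i : Fin r => (p : ℤ) ∣ (F j).eval (A + ((i : ℕ) : ℤ))).card

theorem pow_WW_dvd {g r : ℕ} (F : Fin g → ℤ[X]) (A : ℤ) (d : Fin r → ℕ)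
    (hd : ∀ i : Fin r, (∏ j, (F j).eval (A + ((i : ℕ) : ℤ))) ∣ (d i : ℤ)) (p : ℕ) :
    p ^ WW (r := r) F A p ∣ ∏ i, d i := by
  classical
  have h1 : WW (r := r) F A p = ∑ i : Fin r, (univ.filter fun j => (p : ℤ) ∣ (F j).eval (A + ((i : ℕ) : ℤ))).card := by
    unfold WW
    simp only [Finset.card_filter]
    exact Finset.sum_comm
  rw [h1, ← Finset.prod_pow_eq_pow_sum]
  refine Finset.prod_dvd_prod_of_dvd _ _ fun i _ => ?_
  rw [← Int.natCast_dvd_natCast]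
  push_cast
  refine dvd_trans ?_ (hd i)
  rw [← Finset.prod_const]
  refine (Finset.prod_dvd_prod_of_dvd (fun _ => (p : ℤ)) (fun j => (F j).eval (A + ((i : ℕ) : ℤ)))
    fun j hj => (mem_filter.1 hj).2).trans ?_
  exact Finset.prod_dvd_prod_of_subset _ _ _ (filter_subset _ _)

/-- the sum over the primes -/
theorem sum_WW {g r : ℕ} (F : Fin g → ℤ[X]) (A : ℤ) (n y : ℕ) (hny : n ≤ y) (hyr : y ≤ r) (hr : 1 ≤ r) :
    (1 - (y : ℝ) / r) * r * ∑ j, (SS (F j) y - SS (F j) n) ≤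
      ∑ p ∈ PI n y, (WW (r := r) F A p : ℝ) * Real.log p := by
  classical
  have hr0 : (0 : ℝ) < r := by exact_mod_cast hr
  have hyr' : (y : ℝ) ≤ r := by exact_mod_cast hyr
  have h1 : ∀ j, SS (F j) y - SS (F j) n = ∑ p ∈ PI n y, (rho (F j) p : ℝ) * Real.log p / p := by
    intro j
    unfold SS
    have h2 : (Finset.Icc 1 y).filter Nat.Prime = ((Finset.Icc 1 n).filter Nat.Prime) ∪ PI n y := by
      ext p
      rw [mem_union, mem_PI, mem_filter, mem_filter, mem_Icc, mem_Icc]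
      constructor
      · rintro ⟨⟨h3, h4⟩, h5⟩
        rcases le_or_gt p n with h | h
        · exact Or.inl ⟨⟨h3, h⟩, h5⟩
        · exact Or.inr ⟨h5, h, h4⟩
      · rintro (⟨⟨h3, h4⟩, h5⟩ | ⟨h3, h4, h5⟩)
        · exact ⟨⟨h3, h4.trans hny⟩, h5⟩
        · exact ⟨⟨h3.one_lt.le, h5⟩, h3⟩
    have h3 : Disjoint ((Finset.Icc 1 n).filter Nat.Prime) (PI n y) := by
      rw [Finset.disjoint_left]
      intro p hp hp'
      rw [mem_filter, mem_Icc] at hp
      rw [mem_PI] at hp'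
      omega
    rw [h2, Finset.sum_union h3]
    ring
  simp only [h1]
  rw [Finset.sum_comm, Finset.mul_sum]
  refine Finset.sum_le_sum fun p hp => ?_
  obtain ⟨hpp, -, hpy⟩ := mem_PI.1 hp
  have hp0 : (0 : ℝ) < p := by exact_mod_cast hpp.pos
  have hpy' : (p : ℝ) ≤ y := by exact_mod_cast hpy
  have hl := Real.log_natCast_nonneg p
  have h4 : (1 - (y : ℝ) / r) * r / p ≤ ((r / p : ℕ) : ℝ) := by
    have h5 := Nat.lt_div_mul_add (a := r) hpp.pos
    have h6 : (r : ℝ) < ((r / p : ℕ) : ℝ) * p + p := by exact_mod_cast h5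
    rw [div_le_iff₀ hp0]
    have h7 : (1 - (y : ℝ) / r) * r = r - y := by field_simp
    rw [h7]
    linarith
  have h8 : ∀ j, (1 - (y : ℝ) / r) * r * ((rho (F j) p : ℝ) * Real.log p / p) ≤
      ((univ.filter fun i : Fin r => (p : ℤ) ∣ (F j).eval (A + ((i : ℕ) : ℤ))).card : ℝ) * Real.log p := by
    intro j
    have h9 := count_low (F j) p r hpp.pos A
    have h10 : (rho (F j) p : ℝ) * ((r / p : ℕ) : ℝ) ≤
        ((univ.filter fun i : Fin r => (p : ℤ) ∣ (F j).eval (A + ((i : ℕ) : ℤ))).card : ℝ) := by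
      exact_mod_cast h9
    calc (1 - (y : ℝ) / r) * r * ((rho (F j) p : ℝ) * Real.log p / p) =
          (rho (F j) p : ℝ) * ((1 - (y : ℝ) / r) * r / p) * Real.log p := by ring
      _ ≤ (rho (F j) p : ℝ) * ((r / p : ℕ) : ℝ) * Real.log p := by gcongr
      _ ≤ _ := mul_le_mul_of_nonneg_right h10 hl
  have h11 := Finset.sum_le_sum fun j (_ : j ∈ (univ : Finset (Fin g))) => h8 j
  rw [← Finset.mul_sum, ← Finset.sum_mul] at h11
  refine h11.trans (le_of_eq ?_)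
  unfold WW
  push_cast
  rfl

/-- **The common divisor for degrees in polynomial sequences.** -/
theorem exists_Q_poly (g : ℕ) (F : Fin g → ℤ[X]) (hF : ∀ j, Irreducible (F j)) (hF1 : ∀ j, 0 < (F j).natDegree)
    (ε : ℝ) (hε : 0 < ε) : ∃ δ : ℝ, 0 < δ ∧ ∃ r₀ : ℕ, ∀ r : ℕ, r₀ ≤ r → ∀ n : ℕ, 1 ≤ n → (n : ℝ) ≤ (r : ℝ) ^ δ →
      ∀ (A : ℤ) (d : Fin r → ℕ), (∀ i : Fin r, (∏ j, (F j).eval (A + ((i : ℕ) : ℤ))) ∣ (d i : ℤ)) →
        ∃ Q : ℕ, 0 < Q ∧ (r : ℝ) ^ ((g - ε) * r / n) ≤ Q ∧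
          ∀ p : ℕ, p.Prime → p ∣ Q → n < p ∧ p ^ (n * Q.factorization p) ∣ ∏ i, d i := by
  classical
  set G : ℝ := (g : ℝ) with hG
  have hG0 : 0 ≤ G := Nat.cast_nonneg g
  obtain ⟨D, hD⟩ : ∃ D : ℝ, D = ∑ j, ((F j).natDegree : ℝ) := ⟨_, rfl⟩
  have hD0 : 0 ≤ D := by rw [hD]; exact Finset.sum_nonneg fun j _ => Nat.cast_nonneg _
  obtain ⟨η, hη⟩ : ∃ η : ℝ, η = min (1 / 2) (ε / (8 * (G + 1))) := ⟨_, rfl⟩
  have hη0 : 0 < η := by rw [hη]; positivity
  have hη1 : η ≤ 1 / 2 := by rw [hη]; exact min_le_left _ _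
  have hη2 : η * (8 * (G + 1)) ≤ ε := by
    have : η ≤ ε / (8 * (G + 1)) := by rw [hη]; exact min_le_right _ _
    rwa [le_div_iff₀ (by positivity)] at this
  obtain ⟨δ, hδ⟩ : ∃ δ : ℝ, δ = min (η / 2) (ε / (8 * (D + 1))) := ⟨_, rfl⟩
  have hδ0 : 0 < δ := by rw [hδ]; positivity
  have hδ1 : δ ≤ η / 2 := by rw [hδ]; exact min_le_left _ _
  have hδ2 : δ * (8 * (D + 1)) ≤ ε := by
    have : δ ≤ ε / (8 * (D + 1)) := by rw [hδ]; exact min_le_right _ _
    rwa [le_div_iff₀ (by positivity)] at this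
  choose CL hCL0 hCL using fun j => mert_low (F j) (hF j) (hF1 j) hη0 (by linarith : η < 1)
  choose CU hCU0 hCU using fun j => mert_up (F j) (hF j).ne_zero
  obtain ⟨C₀, hC₀⟩ : ∃ C₀ : ℝ, C₀ = G + ∑ j, CL j + ∑ j, CU j := ⟨_, rfl⟩
  -- large `r`
  have hr : Tendsto (fun r : ℕ => (r : ℝ)) atTop atTop := tendsto_natCast_atTop_atTop
  have ev1 : ∀ᶠ r : ℕ in atTop, G * Real.log r ≤ (r : ℝ) ^ η := by
    have h1 := (isLittleO_log_rpow_atTop hη0).comp_tendsto hr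
    have h2 : (0 : ℝ) < 1 / (G + 1) := by positivity
    filter_upwards [h1.def h2, eventually_ge_atTop 1] with r h3 h4
    have h4' : (1 : ℝ) ≤ r := by exact_mod_cast h4
    simp only [Function.comp, Real.norm_eq_abs] at h3
    rw [abs_of_nonneg (Real.log_nonneg h4'), abs_of_nonneg (by positivity), one_div,
      ← div_eq_inv_mul, le_div_iff₀ (by positivity)] at h3
    have := Real.log_nonneg h4'
    nlinarith
  have ev2 : ∀ᶠ r : ℕ in atTop, C₀ + 3 ≤ ε / 2 * Real.log r := by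
    have h1 := (Real.tendsto_log_atTop.comp hr).const_mul_atTop (show 0 < ε / 2 by positivity)
    exact h1.eventually_ge_atTop _
  have ev3 : ∀ᶠ r : ℕ in atTop, (2 : ℝ) ≤ (r : ℝ) ^ (1 / 4 : ℝ) :=
    ((tendsto_rpow_atTop (show (0 : ℝ) < 1 / 4 by norm_num)).comp hr).eventually_ge_atTop _
  obtain ⟨r₀, hr₀⟩ := eventually_atTop.1 ((ev1.and ev2).and (ev3.and (eventually_ge_atTop 2)))
  refine ⟨δ, hδ0, r₀, fun r hr1 n hn hnr A d hd => ?_⟩
  obtain ⟨⟨e1, e2⟩, e3, e4⟩ := hr₀ r hr1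
  have e4' : (2 : ℝ) ≤ r := by exact_mod_cast e4
  have hr0 : (0 : ℝ) < r := by linarith
  have hr1' : (1 : ℝ) ≤ r := by linarith
  have hn0 : (0 : ℝ) < n := by exact_mod_cast hn
  have hn1 : (1 : ℝ) ≤ n := by exact_mod_cast hn
  obtain ⟨L, hL⟩ : ∃ L : ℝ, L = Real.log r := ⟨_, rfl⟩
  have hL0 : 0 ≤ L := by rw [hL]; exact Real.log_nonneg hr1'
  rw [← hL] at e1 e2
  -- `y`
  obtain ⟨y, hy⟩ : ∃ y : ℕ, y = ⌊(r : ℝ) ^ (1 - η)⌋₊ := ⟨_, rfl⟩
  have hy1 : (y : ℝ) ≤ (r : ℝ) ^ (1 - η) := by rw [hy]; exact Nat.floor_le (by positivity)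
  have hy2 : (r : ℝ) ^ (1 - η) < y + 1 := by rw [hy]; exact Nat.lt_floor_add_one _
  have hbig : (2 : ℝ) ≤ (r : ℝ) ^ (1 - η) := by
    refine e3.trans (Real.rpow_le_rpow_of_exponent_le hr1' (by linarith))
  have hy3 : (r : ℝ) ^ (1 - η) / 2 ≤ y := by linarith
  have hy0 : (1 : ℝ) ≤ y := by linarith
  have hy0' : 1 ≤ y := by exact_mod_cast hy0
  have hyr : y ≤ r := by
    have : (y : ℝ) ≤ r := by
      calc (y : ℝ) ≤ (r : ℝ) ^ (1 - η) := hy1
        _ ≤ (r : ℝ) ^ (1 : ℝ) := Real.rpow_le_rpow_of_exponent_le hr1' (by linarith)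
        _ = r := Real.rpow_one _
    exact_mod_cast this
  have hny : n ≤ y := by
    have h1 : (n : ℝ) ≤ (r : ℝ) ^ (1 / 4 : ℝ) :=
      hnr.trans (Real.rpow_le_rpow_of_exponent_le hr1' (by linarith))
    have h2 : (r : ℝ) ^ (1 / 4 : ℝ) * 2 ≤ (r : ℝ) ^ (1 - η) := by
      calc (r : ℝ) ^ (1 / 4 : ℝ) * 2 ≤ (r : ℝ) ^ (1 / 4 : ℝ) * (r : ℝ) ^ (1 / 4 : ℝ) := by
            exact mul_le_mul_of_nonneg_left e3 (by positivity)
        _ = (r : ℝ) ^ (1 / 4 + 1 / 4 : ℝ) := by rw [Real.rpow_add hr0]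
        _ ≤ _ := Real.rpow_le_rpow_of_exponent_le hr1' (by linarith)
    have : (n : ℝ) ≤ y := by linarith
    exact_mod_cast this
  have hlogy : (1 - η) * L - 1 ≤ Real.log y := by
    have h1 : Real.log ((r : ℝ) ^ (1 - η) / 2) ≤ Real.log y := Real.log_le_log (by positivity) hy3
    rw [Real.log_div (by positivity) (by norm_num), Real.log_rpow hr0, ← hL] at h1
    have := Real.log_two_lt_d9
    linarith
  have hlogn : Real.log n ≤ δ * L := by
    have h1 := Real.log_le_log hn0 hnr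
    rwa [Real.log_rpow hr0, ← hL] at h1
  -- the lower bound for the sum
  have hX : (G * (1 - 2 * η) - D * δ) * L - C₀ ≤ ∑ j, (SS (F j) y - SS (F j) n) := by
    have h1 : ∀ j, ((1 - η) * Real.log y - CL j) - ((F j).natDegree * Real.log n + CU j) ≤
        SS (F j) y - SS (F j) n := fun j => sub_le_sub (hCL j y hy0') (hCU j n hn)
    have h2 := Finset.sum_le_sum fun j (_ : j ∈ (univ : Finset (Fin g))) => h1 j
    refine le_trans ?_ h2
    have h3 : ∑ j, (((1 - η) * Real.log y - CL j) - ((F j).natDegree * Real.log n + CU j)) =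
        G * ((1 - η) * Real.log y) - ∑ j, CL j - (D * Real.log n + ∑ j, CU j) := by
      rw [Finset.sum_sub_distrib, Finset.sum_sub_distrib, Finset.sum_add_distrib, Finset.sum_const,
        Finset.card_univ, Fintype.card_fin, nsmul_eq_mul, ← Finset.sum_mul, hD, hG]
    rw [h3, hC₀]
    have h4 : (1 - 2 * η) * L - 1 ≤ (1 - η) * Real.log y := by
      have h5 : (1 - η) * ((1 - η) * L - 1) ≤ (1 - η) * Real.log y :=
        mul_le_mul_of_nonneg_left hlogy (by linarith)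
      nlinarith [mul_nonneg (mul_nonneg hη0.le hη0.le) hL0]
    have h6 := mul_le_mul_of_nonneg_left h4 hG0
    have h7 := mul_le_mul_of_nonneg_left hlogn hD0
    nlinarith
  have hsum := sum_WW (r := r) F A n y hny hyr (by omega)
  have hlogQ := log_QW n n y hn (WW (r := r) F A)
  refine ⟨QW n n y (WW (r := r) F A), QW_pos _ _ _ _, ?_, fun p hp hpQ =>
    condW n n y le_rfl _ _ (fun p => pow_WW_dvd F A d hd p) hp hpQ⟩
  have hQ0 : (0 : ℝ) < QW n n y (WW (r := r) F A) := by exact_mod_cast QW_pos _ _ _ _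
  rw [Real.rpow_def_of_pos hr0, ← hL, ← Real.le_log_iff_exp_le hQ0]
  refine le_trans ?_ hlogQ
  -- the factor `1 - y / r`
  obtain ⟨t, ht⟩ : ∃ t : ℝ, t = (r : ℝ) ^ (-η) := ⟨_, rfl⟩
  have ht0 : 0 ≤ t := by rw [ht]; positivity
  have hyt : (y : ℝ) ≤ r * t := by
    refine hy1.trans (le_of_eq ?_)
    rw [ht, Real.rpow_sub hr0, Real.rpow_one, Real.rpow_neg hr0.le]
    rfl
  have htG : t * (G * L) ≤ 1 := by
    have h1 : (r : ℝ) ^ (-η) * (r : ℝ) ^ η = 1 := by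
      rw [← Real.rpow_add hr0, neg_add_cancel, Real.rpow_zero]
    calc t * (G * L) ≤ t * (r : ℝ) ^ η := mul_le_mul_of_nonneg_left e1 ht0
      _ = 1 := by rw [ht, h1]
  have ht1 : t ≤ 1 := by
    rw [ht, Real.rpow_neg hr0.le]
    exact inv_le_one_of_one_le₀ (Real.one_le_rpow hr1' hη0.le)
  have htn : t * n ≤ 1 := by
    have h1 : (n : ℝ) ≤ (r : ℝ) ^ η := hnr.trans (Real.rpow_le_rpow_of_exponent_le hr1' (by linarith))
    have h2 : (r : ℝ) ^ (-η) * (r : ℝ) ^ η = 1 := by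
      rw [← Real.rpow_add hr0, neg_add_cancel, Real.rpow_zero]
    calc t * n ≤ t * (r : ℝ) ^ η := mul_le_mul_of_nonneg_left h1 ht0
      _ = 1 := by rw [ht, h2]
  obtain ⟨X, hXd⟩ : ∃ X : ℝ, X = ∑ j, (SS (F j) y - SS (F j) n) := ⟨_, rfl⟩
  rw [← hXd] at hX hsum
  have hX0 : 0 ≤ X := by
    rw [hXd]
    exact Finset.sum_nonneg fun j _ => sub_nonneg.2 (SS_mono _ hny)
  obtain ⟨X₀, hX₀⟩ : ∃ X₀ : ℝ, X₀ = (G * (1 - 2 * η) - D * δ) * L - C₀ := ⟨_, rfl⟩
  rw [← hX₀] at hX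
  have hC₀0 : 0 ≤ C₀ := by
    rw [hC₀]
    have h1 : 0 ≤ ∑ j, CL j := Finset.sum_nonneg fun j _ => hCL0 j
    have h2 : 0 ≤ ∑ j, CU j := Finset.sum_nonneg fun j _ => hCU0 j
    linarith
  have hX₀G : X₀ ≤ G * L := by
    rw [hX₀]
    have h1 : 0 ≤ G * η * L := by positivity
    have h2 : 0 ≤ D * δ * L := by positivity
    nlinarith
  have hfac : X₀ - 1 ≤ (1 - (y : ℝ) / r) * X := by
    have h1 : 1 - t ≤ 1 - (y : ℝ) / r := by
      have : (y : ℝ) / r ≤ t := by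
        rw [div_le_iff₀ hr0]
        linarith
      linarith
    have h2 : (1 - t) * X₀ ≤ (1 - t) * X := mul_le_mul_of_nonneg_left hX (by linarith)
    have h3 : (1 - t) * X ≤ (1 - (y : ℝ) / r) * X := mul_le_mul_of_nonneg_right h1 hX0
    have h4 : t * X₀ ≤ 1 := (mul_le_mul_of_nonneg_left hX₀G ht0).trans htG
    nlinarith
  have hmain : (G - ε) * L ≤ X₀ - 3 := by
    rw [hX₀]
    have h1 : G * η * L ≤ ε / 8 * L := by
      have : G * η ≤ ε / 8 := by nlinarith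
      exact mul_le_mul_of_nonneg_right this hL0
    have h2 : D * δ * L ≤ ε / 8 * L := by
      have : D * δ ≤ ε / 8 := by nlinarith
      exact mul_le_mul_of_nonneg_right this hL0
    nlinarith
  have h1 : r * (X₀ - 1) / n ≤ (∑ p ∈ PI n y, (WW (r := r) F A p : ℝ) * Real.log p) / n := by
    refine div_le_div_of_nonneg_right (le_trans ?_ hsum) hn0.le
    have := mul_le_mul_of_nonneg_left hfac hr0.le
    linarith
  have h2 : 2 * (y : ℝ) ≤ 2 * (r / n) := by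
    rw [mul_div_assoc', le_div_iff₀ hn0]
    have h3 : (y : ℝ) * n ≤ r * (t * n) := by
      rw [← mul_assoc]
      exact mul_le_mul_of_nonneg_right hyt hn0.le
    have h4 : (r : ℝ) * (t * n) ≤ r * 1 := mul_le_mul_of_nonneg_left htn hr0.le
    linarith
  have h3 : L * ((G - ε) * r / n) = r / n * ((G - ε) * L) := by ring
  have h4 : (r : ℝ) / n * ((G - ε) * L) ≤ r / n * (X₀ - 3) :=
    mul_le_mul_of_nonneg_left hmain (by positivity)
  have h5 : (r : ℝ) / n * (X₀ - 3) = r * (X₀ - 1) / n - 2 * (r / n) := by ring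
  linarith

end Pool.Agent.T63.DD
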