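import Pool.Agent.Helper601.HKSieve
import Pool.Agent.Erdos456.Mertens

/-!
# Integers in an interval without prime factors in `(z, N ^ (1 / 8)]`

The Selberg sieve in the form of `Pool.Agent.Helper601.HK`, with the sharp dependence on `z`.
-/

set_option autoImplicit false

open Finset Nat ArithmeticFunction BoundingSieve

namespace Pool.Agent.T63.DD

open Pool.Agent.Helper601 Pool.Agent.Helper601.HK

lemma inv_le_exp {x : ℝ} (h0 : 0 ≤ x) (h1 : x ≤ 1 / 2) : (1 - x)⁻¹ ≤ Real.exp (x + x ^ 2) := by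
  have h2 := Real.quadratic_le_exp_of_nonneg (x := x + x ^ 2) (by positivity)
  have h3 : (0 : ℝ) < 1 - x := by linarith
  rw [inv_le_iff_one_le_mul₀ h3]
  have h4 : 1 ≤ (1 + (x + x ^ 2) + (x + x ^ 2) ^ 2 / 2) * (1 - x) := by
    have h5 : (1 + (x + x ^ 2) + (x + x ^ 2) ^ 2 / 2) * (1 - x) - 1 =
        x ^ 2 * ((1 - x) * (1 + x) ^ 2 / 2 - x) := by ring
    have h6 : 0 ≤ (1 - x) * (1 + x) ^ 2 / 2 - x := by
      nlinarith [mul_nonneg h0 h0, mul_nonneg (mul_nonneg h0 h0) h0,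
        mul_nonneg h0 (show (0 : ℝ) ≤ 1 / 2 - x by linarith),
        mul_nonneg (mul_nonneg h0 h0) (show (0 : ℝ) ≤ 1 / 2 - x by linarith)]
    have h7 : 0 ≤ x ^ 2 * ((1 - x) * (1 + x) ^ 2 / 2 - x) := by positivity
    linarith
  exact h4.trans (mul_le_mul_of_nonneg_right h2 h3.le)

lemma sum_inv_sq_le (S : Finset ℕ) (hS : ∀ q ∈ S, q.Prime) : ∑ q ∈ S, (1 / (q : ℝ)) ^ 2 ≤ 1 := by
  have hT : ∀ T : ℕ, ∑ q ∈ Finset.Ico 2 (T + 2), (1 / (q : ℝ)) ^ 2 ≤ 1 - 1 / ((T : ℝ) + 1) := by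
    intro T
    induction T with
    | zero => simp
    | succ T ih =>
      rw [show T + 1 + 2 = (T + 2) + 1 by ring, Finset.sum_Ico_succ_top (by omega)]
      have h1 : (1 / ((T + 2 : ℕ) : ℝ)) ^ 2 ≤ 1 / ((T : ℝ) + 1) - 1 / ((T : ℝ) + 1 + 1) := by
        push_cast
        rw [div_sub_div _ _ (by positivity) (by positivity), div_pow, div_le_div_iff₀ (by positivity) (by positivity)]
        nlinarith
      push_cast at h1 ⊢
      linarith
  obtain ⟨T, hTb⟩ : ∃ T : ℕ, ∀ q ∈ S, q < T := ⟨S.sup id + 1, fun q hq => Nat.lt_succ_of_le (Finset.le_sup (f := id) hq)⟩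
  calc ∑ q ∈ S, (1 / (q : ℝ)) ^ 2 ≤ ∑ q ∈ Finset.Ico 2 (T + 2), (1 / (q : ℝ)) ^ 2 := by
        apply Finset.sum_le_sum_of_subset_of_nonneg
        · intro q hq
          rw [Finset.mem_Ico]
          exact ⟨(hS q hq).two_le, by have := hTb q hq; omega⟩
        · intro _ _ _; positivity
    _ ≤ 1 - 1 / ((T : ℝ) + 1) := hT T
    _ ≤ 1 := by
        have : (0 : ℝ) < 1 / ((T : ℝ) + 1) := by positivity
        linarith

open Classical in
/-- sum over smooth numbers -/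
theorem sum_factored' (S : Finset ℕ) (hS : ∀ q ∈ S, q.Prime) (N : ℕ) :
    (∑ d ∈ (Finset.Icc 1 N).filter (fun d => ∀ l : ℕ, l.Prime → l ∣ d → l ∈ S), (d : ℝ)⁻¹) ≤
      Real.exp (∑ q ∈ S, 1 / (q : ℝ) + 1) := by
  let f : ℕ →* ℝ :=
    { toFun := fun n => (n : ℝ)⁻¹
      map_one' := by simp
      map_mul' := by intro x y; push_cast; rw [mul_inv] }
  have hf : ∀ {p : ℕ}, p.Prime → ‖f p‖ < 1 := by
    intro p hp
    change ‖(p : ℝ)⁻¹‖ < 1
    rw [norm_inv, RCLike.norm_natCast]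
    exact inv_lt_one_of_one_lt₀ (by exact_mod_cast hp.one_lt)
  have h := EulerProduct.summable_and_hasSum_factoredNumbers_prod_filter_prime_geometric
    (f := f) (fun {p} hp => hf hp) S
  have hsum := h.2
  have h1 : (∑ d ∈ (Finset.Icc 1 N).filter (fun d => ∀ l : ℕ, l.Prime → l ∣ d → l ∈ S),
      (d : ℝ)⁻¹) ≤ ∏ p ∈ S.filter Nat.Prime, (1 - f p)⁻¹ := by
    set G := (Finset.Icc 1 N).filter (fun d => ∀ l : ℕ, l.Prime → l ∣ d → l ∈ S) with hG
    have hmem : ∀ d ∈ G, d ∈ Nat.factoredNumbers S := by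
      intro d hd
      rw [hG, Finset.mem_filter, Finset.mem_Icc] at hd
      rw [Nat.mem_factoredNumbers']
      exact fun p hp hpd => hd.2 p hp hpd
    let e : {x // x ∈ G} ↪ (Nat.factoredNumbers S : Set ℕ) :=
      ⟨fun d => ⟨d.1, hmem d.1 d.2⟩, by
        intro x y hxy
        have := congrArg Subtype.val hxy
        exact Subtype.ext this⟩
    have : (∑ d ∈ G, (d : ℝ)⁻¹) = ∑ m ∈ G.attach.map e, f m := by
      rw [← Finset.sum_attach, Finset.sum_map]
      rfl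
    rw [this]
    exact sum_le_hasSum _ (fun i _ => by
      change 0 ≤ ((i : ℕ) : ℝ)⁻¹
      positivity) hsum
  refine h1.trans ?_
  have h2 : ∏ p ∈ S.filter Nat.Prime, (1 - f p)⁻¹ ≤
      ∏ p ∈ S.filter Nat.Prime, Real.exp (1 / (p : ℝ) + (1 / (p : ℝ)) ^ 2) := by
    apply Finset.prod_le_prod
    · intro q hq
      have hp := (Finset.mem_filter.mp hq).2
      change 0 ≤ (1 - (q : ℝ)⁻¹)⁻¹
      have : (q : ℝ)⁻¹ < 1 := inv_lt_one_of_one_lt₀ (by exact_mod_cast hp.one_lt)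
      apply inv_nonneg.mpr; linarith
    · intro q hq
      have hp := (Finset.mem_filter.mp hq).2
      have hq2 : (2 : ℝ) ≤ q := by exact_mod_cast hp.two_le
      change (1 - (q : ℝ)⁻¹)⁻¹ ≤ _
      rw [inv_eq_one_div (q : ℝ)]
      exact inv_le_exp (by positivity) (one_div_le_one_div_of_le (by norm_num) hq2)
  refine h2.trans ?_
  rw [← Real.exp_sum, Finset.sum_add_distrib, Finset.filter_true_of_mem hS]
  apply Real.exp_le_exp.mpr
  have := sum_inv_sq_le S hS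
  linarith

theorem ivSelS_ge_log' (S : Finset ℕ) (hS : ∀ q ∈ S, q.Prime) (a u R : ℕ) (q : ℕ)
    (hq : ∀ l : ℕ, l.Prime → l ≤ R → (l ∣ q ↔ l ∈ S)) :
    Real.log ((R : ℝ) + 1) / (2 * Real.exp (∑ q ∈ S, 1 / (q : ℝ) + 1)) ≤
      selS (ivSieve a u q R) R := by
  have h1 := ivSelS_ge a u q R
  have h2 := sum_inv_le_two_mul q R
  have h3 := harmonic_le_mul S q R hq
  have h4 := log_add_one_le_harmonic R
  have h5 := sum_factored' S hS R
  rw [harmonic_eq_sum_Icc] at h4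
  push_cast at h4
  set A := ∑ n ∈ (Finset.Icc 1 R).filter (fun n => Nat.Coprime n q), (n : ℝ)⁻¹ with hA
  set E := Real.exp (∑ q ∈ S, 1 / (q : ℝ) + 1) with hE
  have hE0 : 0 < E := Real.exp_pos _
  have hA0 : 0 ≤ A := Finset.sum_nonneg (fun _ _ => by positivity)
  have h6 : Real.log ((R : ℝ) + 1) ≤ A * E := by
    calc Real.log ((R : ℝ) + 1) ≤ ∑ n ∈ Finset.Icc 1 R, (n : ℝ)⁻¹ := h4
      _ ≤ _ := h3
      _ ≤ A * E := mul_le_mul_of_nonneg_left h5 hA0
  rw [div_le_iff₀ (by positivity)]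
  calc Real.log ((R : ℝ) + 1) ≤ A * E := h6
    _ ≤ (2 * selS (ivSieve a u q R) R) * E := by
        apply mul_le_mul_of_nonneg_right _ hE0.le
        linarith
    _ = _ := by ring

open Classical in
/-- Selberg bound with an explicit level. -/
theorem sieve_aux' (S : Finset ℕ) (a u R : ℕ) (hR : 1 ≤ R) (hS : ∀ q ∈ S, q.Prime ∧ q ≤ R) :
    (((Finset.Ioc a (a + u)).filter
      (fun n => ∀ l : ℕ, l.Prime → l ≤ R → l ∣ n → l ∈ S)).card : ℝ) ≤
      2 * u / Real.log ((R : ℝ) + 1) * Real.exp (∑ q ∈ S, 1 / (q : ℝ) + 1) + (R : ℝ) ^ 4 := by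
  set q : ℕ := ∏ s ∈ S, s with hqdef
  have hq : ∀ l : ℕ, l.Prime → l ≤ R → (l ∣ q ↔ l ∈ S) := by
    intro l hl _
    rw [hqdef, Prime.dvd_finsetProd_iff hl.prime]
    constructor
    · rintro ⟨s, hs, hls⟩
      have : l = s := (Nat.prime_dvd_prime_iff_eq hl (hS s hs).1).mp hls
      rw [this]; exact hs
    · intro h; exact ⟨l, h, dvd_rfl⟩
  have hR' : (1 : ℝ) ≤ R := by exact_mod_cast hR
  have e : (((Finset.Ioc a (a + u)).filter
      (fun n => ∀ l : ℕ, l.Prime → l ≤ R → l ∣ n → l ∈ S)).card : ℝ) ≤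
      (ivSieve a u q R).siftedSum := by
    unfold BoundingSieve.siftedSum
    have h0 : (ivSieve a u q R).support = Finset.Ioc a (a + u) := rfl
    have h' : ∀ n, (ivSieve a u q R).weights n = 1 := fun _ => rfl
    have h'' : (ivSieve a u q R).prodPrimes = PP q R := rfl
    rw [h0]
    simp only [h', h'']
    rw [← Finset.sum_filter, Finset.sum_const, nsmul_eq_mul, mul_one]
    have : ((Finset.Ioc a (a + u)).filter
      (fun n => ∀ l : ℕ, l.Prime → l ≤ R → l ∣ n → l ∈ S)).card ≤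
      ((Finset.Ioc a (a + u)).filter (fun n => Nat.Coprime (PP q R) n)).card := by
      apply Finset.card_le_card
      intro n hn
      rw [Finset.mem_filter] at hn ⊢
      refine ⟨hn.1, ?_⟩
      by_contra hc
      obtain ⟨l, hl, hlg⟩ := Nat.exists_prime_and_dvd hc
      have h1 : l ∣ PP q R := hlg.trans (Nat.gcd_dvd_left _ _)
      have h2 : l ∣ n := hlg.trans (Nat.gcd_dvd_right _ _)
      have h3 := (prime_dvd_PP hl).mp h1
      exact h3.2 ((hq l hl h3.1).mpr (hn.2 l hl h3.1 h2))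
    exact_mod_cast this
  have h2 := siftedSum_le_selberg (ivSieve a u q R) (R : ℝ) hR' 1 zero_le_one
    (fun d hd => ivSieve_rem hd)
  have h3 := ivSelS_ge_log' S (fun s hs => (hS s hs).1) a u R q hq
  set E := Real.exp (∑ q ∈ S, 1 / (q : ℝ) + 1) with hE
  have hE0 : 0 < E := Real.exp_pos _
  have hlog : 0 < Real.log ((R : ℝ) + 1) := Real.log_pos (by linarith)
  have h4 : (ivSieve a u q R).totalMass / selS (ivSieve a u q R) R ≤
      2 * u / Real.log ((R : ℝ) + 1) * E := by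
    change (u : ℝ) / _ ≤ _
    have : (u : ℝ) / selS (ivSieve a u q R) R ≤ (u : ℝ) / (Real.log ((R : ℝ) + 1) / (2 * E)) := by
      apply div_le_div_of_nonneg_left (by positivity) (by positivity) h3
    refine this.trans (le_of_eq ?_)
    field_simp
  have h5 : (∑ d ∈ (divisors (ivSieve a u q R).prodPrimes).filter (fun d : ℕ => (d : ℝ) ≤ R),
      ((ivSieve a u q R).nu d)⁻¹) ≤ (R : ℝ) ^ 2 := by
    have h6 : (divisors (ivSieve a u q R).prodPrimes).filter (fun d : ℕ => (d : ℝ) ≤ R) ⊆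
        Finset.Icc 1 R := by
      intro d hd
      rw [Finset.mem_filter, Nat.mem_divisors] at hd
      rw [Finset.mem_Icc]
      refine ⟨Nat.pos_of_ne_zero (ne_zero_of_dvd_ne_zero hd.1.2 hd.1.1), by exact_mod_cast hd.2⟩
    calc (∑ d ∈ (divisors (ivSieve a u q R).prodPrimes).filter (fun d : ℕ => (d : ℝ) ≤ R),
          ((ivSieve a u q R).nu d)⁻¹)
        = ∑ d ∈ (divisors (ivSieve a u q R).prodPrimes).filter (fun d : ℕ => (d : ℝ) ≤ R),
          (d : ℝ) := by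
          apply Finset.sum_congr rfl
          intro d _
          change ((d : ℝ)⁻¹)⁻¹ = d
          rw [inv_inv]
      _ ≤ ∑ d ∈ Finset.Icc 1 R, (d : ℝ) :=
          Finset.sum_le_sum_of_subset_of_nonneg h6 (fun _ _ _ => by positivity)
      _ ≤ ∑ d ∈ Finset.Icc 1 R, (R : ℝ) := by
          apply Finset.sum_le_sum
          intro d hd
          exact_mod_cast (Finset.mem_Icc.mp hd).2
      _ = (R : ℝ) ^ 2 := by simp; ring
  have h7 : 0 ≤ (∑ d ∈ (divisors (ivSieve a u q R).prodPrimes).filter (fun d : ℕ => (d : ℝ) ≤ R),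
      ((ivSieve a u q R).nu d)⁻¹) := by
    apply Finset.sum_nonneg
    intro d _
    change 0 ≤ ((d : ℝ)⁻¹)⁻¹
    positivity
  have h8 : (∑ d ∈ (divisors (ivSieve a u q R).prodPrimes).filter (fun d : ℕ => (d : ℝ) ≤ R),
      ((ivSieve a u q R).nu d)⁻¹) ^ 2 ≤ (R : ℝ) ^ 4 := by
    calc _ ≤ ((R : ℝ) ^ 2) ^ 2 := by gcongr
      _ = (R : ℝ) ^ 4 := by ring
  linarith

open Classical in
/-- **The sieve.** -/
theorem rough : ∃ K : ℝ, 1 ≤ K ∧ ∀ a u z : ℕ, 2 ≤ u → 2 ≤ z →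
    (((Finset.Ioc a (a + u)).filter
      (fun n => ∀ l : ℕ, l.Prime → z < l → l ^ 8 ≤ u → ¬ l ∣ n)).card : ℝ)
      ≤ K * u * Real.log z / Real.log u := by
  obtain ⟨C, hC⟩ := Pool.Agent.Erdos456.Mert.mertens_inv
  have hC0 : 0 ≤ C := (abs_nonneg _).trans (hC 3 le_rfl)
  -- the sum of `1 / p` over the primes up to `z`
  have hmert : ∀ z : ℕ, 2 ≤ z → Real.exp (∑ p ∈ (Finset.Icc 1 z).filter Nat.Prime, (1 : ℝ) / p + 1) ≤
      4 * Real.exp (C + 2) * Real.log z := by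
    intro z hz
    have hlz : 0 < Real.log z := Real.log_pos (by exact_mod_cast hz)
    rcases Nat.lt_or_ge z 3 with h3 | h3
    · have h2 : z = 2 := by omega
      subst h2
      have e1 : (Finset.Icc 1 2).filter Nat.Prime = {2} := by decide
      rw [e1, Finset.sum_singleton]
      have h4 : Real.exp (1 / ((2 : ℕ) : ℝ) + 1) ≤ Real.exp (C + 2) := by
        apply Real.exp_le_exp.mpr
        push_cast
        linarith
      have h5 : (1 : ℝ) ≤ 4 * Real.log ((2 : ℕ) : ℝ) := by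
        have := Real.log_two_gt_d9
        push_cast
        linarith
      have h6 := Real.exp_pos (C + 2)
      calc Real.exp (1 / ((2 : ℕ) : ℝ) + 1) ≤ Real.exp (C + 2) * 1 := by rw [mul_one]; exact h4
        _ ≤ Real.exp (C + 2) * (4 * Real.log ((2 : ℕ) : ℝ)) := mul_le_mul_of_nonneg_left h5 h6.le
        _ = _ := by ring
    · have h4 := (abs_le.1 (hC z h3)).2
      have h5 : Real.exp (∑ p ∈ (Finset.Icc 1 z).filter Nat.Prime, (1 : ℝ) / p + 1) ≤
          Real.exp (Real.log (Real.log z) + (C + 2)) := by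
        apply Real.exp_le_exp.mpr
        linarith
      rw [Real.exp_add (Real.log (Real.log z)), Real.exp_log hlz] at h5
      have h6 := Real.exp_pos (C + 2)
      nlinarith
  set D : ℝ := 4 * Real.exp (C + 2) with hD
  have hD0 : 0 < D := by positivity
  have hD1 : 4 ≤ D := by
    have := Real.one_le_exp (show 0 ≤ C + 2 by linarith)
    linarith
  refine ⟨16 * D + 4, by linarith, ?_⟩
  intro a u z hu hz
  have hN' : (2 : ℝ) ≤ u := by exact_mod_cast hu
  have hN0 : (0 : ℝ) < u := by linarith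
  have hlogN : 0 < Real.log u := Real.log_pos (by linarith)
  have hz' : (2 : ℝ) ≤ z := by exact_mod_cast hz
  have hlz : 0 < Real.log z := Real.log_pos (by linarith)
  set x : ℝ := (u : ℝ) ^ ((1 : ℝ) / 8) with hx
  have hx1 : 1 ≤ x := Real.one_le_rpow (by linarith) (by norm_num)
  have hR : 1 ≤ ⌊x⌋₊ := Nat.floor_pos.mpr hx1
  have hfl : (⌊x⌋₊ : ℝ) ≤ x := Nat.floor_le (by linarith)
  have hx8 : x ^ 8 = u := by
    rw [hx, ← Real.rpow_natCast, ← Real.rpow_mul hN0.le]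
    norm_num
  set S : Finset ℕ := ((Finset.Icc 1 z).filter Nat.Prime).filter (fun q => q ≤ ⌊x⌋₊) with hS
  have h := sieve_aux' S a u ⌊x⌋₊ hR (by
    intro q hq
    rw [hS, Finset.mem_filter, Finset.mem_filter] at hq
    exact ⟨hq.1.2, hq.2⟩)
  have h0 : ((Finset.Ioc a (a + u)).filter
      (fun n => ∀ l : ℕ, l.Prime → z < l → l ^ 8 ≤ u → ¬ l ∣ n)).card ≤
      ((Finset.Ioc a (a + u)).filter
      (fun n => ∀ l : ℕ, l.Prime → l ≤ ⌊x⌋₊ → l ∣ n → l ∈ S)).card := by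
    apply Finset.card_le_card
    intro n hn
    rw [Finset.mem_filter] at hn ⊢
    refine ⟨hn.1, fun l hl hlR hln => ?_⟩
    rw [hS, Finset.mem_filter, Finset.mem_filter, Finset.mem_Icc]
    refine ⟨⟨⟨hl.one_lt.le, ?_⟩, hl⟩, hlR⟩
    by_contra hlz'
    push Not at hlz'
    refine hn.2 l hl hlz' ?_ hln
    have h1 : (l : ℝ) ≤ x := le_trans (by exact_mod_cast hlR) hfl
    have h2 : (l : ℝ) ^ 8 ≤ x ^ 8 := pow_le_pow_left₀ (by positivity) h1 8
    rw [hx8] at h2
    exact_mod_cast h2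
  have hfl2 : x < (⌊x⌋₊ : ℝ) + 1 := Nat.lt_floor_add_one x
  have hlogx : Real.log x = Real.log u / 8 := by
    rw [hx, Real.log_rpow hN0]; ring
  have hlog2 : Real.log u / 8 ≤ Real.log ((⌊x⌋₊ : ℝ) + 1) := by
    rw [← hlogx]
    exact Real.log_le_log (by linarith) hfl2.le
  have hx4 : x ^ 4 = Real.sqrt u := by
    rw [hx, ← Real.rpow_natCast, ← Real.rpow_mul hN0.le, Real.sqrt_eq_rpow]
    norm_num
  have hsq : 0 < Real.sqrt u := Real.sqrt_pos.mpr hN0
  have hsq2 : Real.sqrt u * Real.sqrt u = u := Real.mul_self_sqrt hN0.le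
  have hlogsq : Real.log u ≤ 2 * Real.sqrt u := by
    have h1 : Real.log (Real.sqrt u) ≤ Real.sqrt u - 1 := Real.log_le_sub_one_of_pos hsq
    rw [Real.log_sqrt hN0.le] at h1
    linarith
  have hE : Real.exp (∑ q ∈ S, 1 / (q : ℝ) + 1) ≤ D * Real.log z := by
    refine le_trans ?_ (hmert z hz)
    apply Real.exp_le_exp.mpr
    have : ∑ q ∈ S, 1 / (q : ℝ) ≤ ∑ p ∈ (Finset.Icc 1 z).filter Nat.Prime, (1 : ℝ) / p := by
      apply Finset.sum_le_sum_of_subset_of_nonneg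
      · exact Finset.filter_subset _ _
      · intro _ _ _; positivity
    linarith
  have h1 : 2 * (u : ℝ) / Real.log ((⌊x⌋₊ : ℝ) + 1) * Real.exp (∑ q ∈ S, 1 / (q : ℝ) + 1) ≤
      16 * u / Real.log u * (D * Real.log z) := by
    have h2 : 2 * (u : ℝ) / Real.log ((⌊x⌋₊ : ℝ) + 1) ≤ 2 * (u : ℝ) / (Real.log u / 8) := by
      apply div_le_div_of_nonneg_left (by positivity) (by positivity) hlog2
    have h3 : 2 * (u : ℝ) / (Real.log u / 8) = 16 * u / Real.log u := by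
      field_simp
      ring
    rw [h3] at h2
    exact mul_le_mul h2 hE (Real.exp_pos _).le (by positivity)
  have h2 : ((⌊x⌋₊ : ℕ) : ℝ) ^ 4 ≤ 4 * u * Real.log z / Real.log u := by
    have h3 : ((⌊x⌋₊ : ℕ) : ℝ) ^ 4 ≤ x ^ 4 := pow_le_pow_left₀ (by positivity) hfl 4
    refine h3.trans ?_
    rw [hx4, le_div_iff₀ hlogN]
    have h5 : Real.sqrt u * Real.log u ≤ 2 * u := by
      calc Real.sqrt u * Real.log u ≤ Real.sqrt u * (2 * Real.sqrt u) :=
            mul_le_mul_of_nonneg_left hlogsq hsq.le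
        _ = 2 * u := by linear_combination 2 * hsq2
    have h6 : (1 / 2 : ℝ) ≤ Real.log z := by
      have h7 := Real.log_two_gt_d9
      have h8 : Real.log 2 ≤ Real.log z := Real.log_le_log (by norm_num) hz'
      linarith
    nlinarith [mul_le_mul_of_nonneg_left h6 hN0.le]
  calc (((Finset.Ioc a (a + u)).filter
      (fun n => ∀ l : ℕ, l.Prime → z < l → l ^ 8 ≤ u → ¬ l ∣ n)).card : ℝ) ≤
      (((Finset.Ioc a (a + u)).filter
      (fun n => ∀ l : ℕ, l.Prime → l ≤ ⌊x⌋₊ → l ∣ n → l ∈ S)).card : ℝ) := by exact_mod_cast h0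
    _ ≤ _ := h
    _ ≤ 16 * u / Real.log u * (D * Real.log z) + 4 * u * Real.log z / Real.log u := by linarith
    _ = (16 * D + 4) * u * Real.log z / Real.log u := by ring

end Pool.Agent.T63.DD
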